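import Pool.Agent.H60.LQ.Stmts
import Pool.Agent.H53.Dense.Restr
import Pool.Agent.H53.Dense.Loss

/-!
# LQ, row FIN: the final theorem
-/

set_option autoImplicit false

namespace Pool.LQ

open Finset Real Filter
open Pool.Agent.H49.Ent Pool.Agent.H32.Dense Pool.Agent.H24.KTH

namespace Fin70

lemma DD_pos {a : ℝ} (ha : 1 ≤ a) : 0 < a ^ 2 + 3 * a - 2 := by nlinarith

lemma kp_pos {a : ℝ} (ha : 1 ≤ a) (ha2 : a ≤ 2) : 0 < kp a := by
  unfold kp
  refine div_pos ?_ (DD_pos ha)
  nlinarith [mul_nonneg (sub_nonneg.mpr ha) (sub_nonneg.mpr ha2)]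

lemma nx_fix {α : ℝ} (h1 : 1 < α) (hα : α ^ 3 = 4 * α - 2) : nx α = α := by
  unfold nx
  rw [div_eq_iff (DD_pos h1.le).ne']
  nlinarith

/-- the exponent is a continuous function of `a` -/
lemma exp_tendsto {α : ℝ} (h1 : 1 < α) (hα2 : α < 2) (d : ℕ) :
    ContinuousAt (fun a : ℝ => 1 + nx a / (d + kp a)) α := by
  have hD := DD_pos h1.le
  have hk := kp_pos h1.le hα2.le
  have c1 : ContinuousAt nx α := by
    unfold nx
    exact ContinuousAt.div (by fun_prop) (by fun_prop) hD.ne'
  have c2 : ContinuousAt kp α := by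
    unfold kp
    exact ContinuousAt.div (by fun_prop) (by fun_prop) hD.ne'
  refine continuousAt_const.add (c1.div (continuousAt_const.add c2) ?_)
  have : (0 : ℝ) ≤ d := Nat.cast_nonneg d
  linarith

end Fin70

open Fin70 in
/-- **FIN**: the theorem. -/
theorem fin (hITR : ITRStmt) (hSTP : STPStmt) (hHCB : HCBStmt) (hDCS : DCSStmt) : FINStmt := by
  intro d hd α h1 hα q hq
  have hd7 : (7 : ℝ) ≤ d := by exact_mod_cast hd
  have hd0 : (0 : ℝ) < d := by linarith
  have hd1 : 1 ≤ d := by omega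
  have hα2 : α < 2 := by nlinarith [sq_nonneg (α - 2), sq_nonneg (α + 2)]
  -- a neighbourhood of the root
  obtain ⟨x, hx, hxq⟩ : ∃ x : ℝ, α < x ∧ ∀ a : ℝ, α < a → a < x → 1 + nx a / (d + kp a) < q := by
    have hlim := (exp_tendsto h1 hα2 d).eventually_lt
      (continuousAt_const (y := q)) (by
        simp only [nx_fix h1 hα]
        exact hq)
    obtain ⟨r, hr, hr2⟩ := Metric.eventually_nhds_iff.mp hlim
    refine ⟨α + r, by linarith, fun a ha ha2 => hr2 ?_⟩
    rw [Real.dist_eq, abs_of_pos (by linarith)]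
    linarith
  obtain ⟨a, ha, hax, ha2, hA, hlp⟩ := hITR d hd α h1 hα x hx
  have ha1 : 1 ≤ a := by linarith
  have hD := DD_pos ha1
  have hk := kp_pos ha1 ha2
  have hgap := hSTP d a (1.01 * (a + d)) hd1 ha1 ha2 (by linarith) hA
  have hnx1 : 1 + kp a / d ≤ nx a := by
    have e1 : nx a - 1 - kp a / d =
        (d * (2 * a ^ 2 - a) - (3 * a - a ^ 2 - 1)) / (d * (a ^ 2 + 3 * a - 2)) := by
      unfold nx kp
      have hDn := hD.ne'
      rw [div_sub_one hDn, div_div, div_sub_div _ _ hDn (by positivity), div_eq_div_iff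
        (by positivity) (by positivity)]
      ring
    have e2 : 0 ≤ (d * (2 * a ^ 2 - a) - (3 * a - a ^ 2 - 1)) / (d * (a ^ 2 + 3 * a - 2)) := by
      refine div_nonneg ?_ (by positivity)
      have : 1 ≤ 2 * a ^ 2 - a := by nlinarith
      nlinarith
    linarith
  have hlp1 : nx a ≤ lp a (1.01 * (a + d)) := by
    unfold nx lp
    refine div_le_div_of_nonneg_right ?_ hD.le
    nlinarith
  have hds := hHCB d (nx a) (lp a (1.01 * (a + d))) (kp a) hd1 hk.le hnx1 hlp1 hgap
  have hdk : 0 < (d : ℝ) + kp a := by linarith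
  have ha' : 1 ≤ nx a * d / (d + kp a) := by
    rw [one_le_div hdk]
    have h2 : (1 + kp a / d) * d ≤ nx a * d := by gcongr
    have h3 : (1 + kp a / d) * d = d + kp a := by field_simp
    linarith
  have hl' : lp a (1.01 * (a + d)) * d / (d + kp a) ≤ nx a * d / (d + kp a) + d := by
    rw [div_add' _ _ _ hdk.ne']
    refine div_le_div_of_nonneg_right ?_ hdk.le
    nlinarith [mul_le_mul_of_nonneg_right hlp hd0.le, mul_pos hd0 hk]
  have hcount := hDCS d _ _ ha' hl' hds
  refine Pool.Agent.H53.Kak.lossless_of_restricted hd1 ha'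
    (Pool.Agent.H53.Dns.restricted_of_count ha' hcount) ?_
  have h4 : nx a * d / (d + kp a) / d = nx a / (d + kp a) := by
    field_simp
  rw [h4]
  exact hxq a ha hax

end Pool.LQ
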