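import Pool.Agent.H60.LQ.Stmts

/-!
# LQ, row SBP: the entropy of the pair (time, position) and of the time
-/

set_option autoImplicit false

namespace Pool.LQ

open Finset Real
open Pool.Agent.H49.Ent Pool.Agent.H32.Dense Pool.Agent.H24.KTH

/-- **SBP**: `Sb` is the entropy of the pair (time, position); bounds of the entropy of the
time. -/
theorem sbp : SBPStmt := by
  intro d J Ω _ ζ p Z v u τ hF
  have hl : Real.log ((2 ^ J : ℕ) : ℝ) = J * Real.log 2 := by
    push_cast
    rw [Real.log_pow]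
  refine ⟨?_, ?_, ?_⟩
  · have c1 := CH_chain hF.hp (fun ω => rd (pos (2 ^ J) (u ω) (v ω) (τ ω))) τ Z
    have c2 : CH p (fun ω => (rd (pos (2 ^ J) (u ω) (v ω) (τ ω)), τ ω)) Z =
        CH p (fun ω => (τ ω, rd (pos (2 ^ J) (u ω) (v ω) (τ ω)))) Z := by
      refine CH_congr hF.hp ?_ ?_ ?_ ?_ <;>
      · intro w w' _ _ e
        try simp only [Prod.mk.injEq] at e ⊢
        tauto
    have c3 : CH p (fun ω => rd (pos (2 ^ J) (u ω) (v ω) (τ ω))) (fun ω => (τ ω, Z ω)) =
        CH p (fun ω => rd (pos (2 ^ J) (u ω) (v ω) (τ ω))) (fun ω => (Z ω, τ ω)) := by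
      refine CH_congr hF.hp ?_ ?_ ?_ ?_ <;>
      · intro w w' _ _ e
        try simp only [Prod.mk.injEq] at e ⊢
        tauto
    unfold Sb Sf
    rw [← c2, c1, c3]
  · have h : CH p τ (bv Z v) ≤ CH p τ Z := CH_mono_cond hF.hp (fun ω ω' _ _ e => by
      simp only [bv, Prod.mk.injEq] at e
      exact e.2)
    unfold Kf
    rw [hl]
    linarith
  · have h := CH_time_le hF.hp hF.h1 hF.hτ Z
    rw [hl] at h
    exact h

end Pool.LQ
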