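import Pool.Agent.H60.LQ.Six
import Pool.Agent.H32.Dense.Zero

/-!
# LQ, row L02: the better level zero
-/

set_option autoImplicit false

namespace Pool.LQ

open Finset Real
open Pool.Agent.H49.Ent Pool.Agent.H32.Dense Pool.Agent.H24.KTH

namespace H70L02

theorem core (d M : ℕ) (Ω : Type) [Fintype Ω] (ζ : Type) (p : Ω → ℝ) (Z : Ω → ζ)
    (v : Ω → Fin d → ℤ) (u : Ω → Fin d → ℝ) (τ : Ω → ℤ) (h : IsFam M p Z v u τ) :
    CH p v Z + 2 * CH p τ (bv Z v) ≤
      2 * (CH p τ Z + Sf M p Z v u τ) + d * (Gf M p (bv Z v) τ + 2) := by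
  have hp := h.hp
  have hd : (0 : ℝ) ≤ d := Nat.cast_nonneg d
  set q : Ω × Ω → ℝ := dbl p (bv Z v) with hqd
  have hq : ∀ w, 0 ≤ q w := dbl_nonneg hp
  have hq1 : ∑ w, q w = 1 := by rw [(dbl_fst hp).sum]; exact h.h1
  have m1 : Marg q p (fun w => w.1) := dbl_fst hp
  have m2 : Marg q p (fun w => w.2) := dbl_snd hp
  have hb : ∀ w, 0 < q w → v w.1 = v w.2 ∧ Z w.1 = Z w.2 := by
    intro w hw
    have := dbl_eq hp hw
    simpa [bv] using this
  have hu : ∀ w, 0 < q w → u w.1 = u w.2 := by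
    intro w hw
    obtain ⟨e1, e2⟩ := hb w hw
    exact h.hu _ _ (m1.pos hq hw) (m2.pos hq hw) (by simp only [e1, e2])
  have hτ1 : ∀ w, 0 < q w → 0 ≤ τ w.1 ∧ τ w.1 < M := fun w hw => h.hτ _ (m1.pos hq hw)
  have hτ2 : ∀ w, 0 < q w → 0 ≤ τ w.2 ∧ τ w.2 < M := fun w hw => h.hτ _ (m2.pos hq hw)
  -- lower bound
  have a0 : CH q (fun w => v w.1) (fun w => Z w.1) = CH p v Z := m1.CH v Z
  have a1 := CH_bayes hq (fun w => v w.1) (fun w => τ w.1) (fun w => Z w.1)
  have a2 : CH q (fun w => τ w.1) (fun w => (v w.1, Z w.1)) = CH p τ (fun ω => (v ω, Z ω)) :=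
    m1.CH τ (fun ω => (v ω, Z ω))
  have a3 : CH q (fun w => τ w.1) (fun w => Z w.1) = CH p τ Z := m1.CH τ Z
  have a4 := CH_bayes hq (fun w => v w.1) (fun w => τ w.2) (fun w => (τ w.1, Z w.1))
  have a5 : CH q (fun w => τ w.2) (fun w => (v w.1, (τ w.1, Z w.1))) =
      CH p τ (fun ω => (v ω, Z ω)) := by
    have hh := CH_dbl_2 hp (b := bv Z v) τ τ
    rw [show CH p τ (fun ω => (v ω, Z ω)) = CH p τ (bv Z v) from rfl, ← hh]
    refine CH_congr hq ?_ ?_ ?_ ?_
    · intro w w' a b e; exact (Prod.ext_iff.mp e).1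
    · intro w w' a b e; exact (Prod.ext_iff.mp e).1
    · intro w w' a b e
      obtain ⟨e1, e2⟩ := hb w a
      obtain ⟨e3, e4⟩ := hb w' b
      simp only [bv, Prod.mk.injEq] at e ⊢
      rw [← e1, ← e2, ← e3, ← e4]
      tauto
    · intro w w' a b e
      obtain ⟨e1, e2⟩ := hb w a
      obtain ⟨e3, e4⟩ := hb w' b
      simp only [bv, Prod.mk.injEq] at e ⊢
      rw [e1, e2, e3, e4]
      tauto
  have a6 : CH q (fun w => τ w.2) (fun w => (τ w.1, Z w.1)) ≤ CH p τ Z := by
    have e : CH q (fun w => τ w.2) (fun w => Z w.2) = CH p τ Z := m2.CH τ Z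
    rw [← e]
    refine CH_mono_cond hq ?_
    intro w w' a b e
    obtain ⟨e1, e2⟩ := hb w a
    obtain ⟨e3, e4⟩ := hb w' b
    simp only [Prod.mk.injEq] at e
    show Z w.2 = Z w'.2
    rw [← e2, ← e4, e.2]
  -- upper bound
  have b1 := CH_le_add hq (fun w => v w.1) (fun w => rd (pos M (u w.1) (v w.1) (τ w.1)))
    (fun w => (τ w.2, (τ w.1, Z w.1)))
  have b2 := CH_le_add hq (fun w => v w.1) (fun w => rd (pos M (u w.1) (v w.1) (τ w.2)))
    (fun w => (rd (pos M (u w.1) (v w.1) (τ w.1)), (τ w.2, (τ w.1, Z w.1))))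
  have b3 : CH q (fun w => rd (pos M (u w.1) (v w.1) (τ w.1)))
      (fun w => (τ w.2, (τ w.1, Z w.1))) ≤ Sf M p Z v u τ := by
    have e : CH q (fun w => rd (pos M (u w.1) (v w.1) (τ w.1))) (fun w => (Z w.1, τ w.1)) =
        Sf M p Z v u τ :=
      m1.CH (fun ω => rd (pos M (u ω) (v ω) (τ ω))) (fun ω => (Z ω, τ ω))
    rw [← e]
    refine CH_mono_cond hq ?_
    intro w w' _ _ e
    simp only [Prod.mk.injEq] at e ⊢
    tauto
  have b4 : CH q (fun w => rd (pos M (u w.1) (v w.1) (τ w.2)))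
      (fun w => (rd (pos M (u w.1) (v w.1) (τ w.1)), (τ w.2, (τ w.1, Z w.1)))) ≤
      Sf M p Z v u τ := by
    have e : CH q (fun w => rd (pos M (u w.2) (v w.2) (τ w.2))) (fun w => (Z w.2, τ w.2)) =
        Sf M p Z v u τ :=
      m2.CH (fun ω => rd (pos M (u ω) (v ω) (τ ω))) (fun ω => (Z ω, τ ω))
    have e' : CH q (fun w => rd (pos M (u w.1) (v w.1) (τ w.2))) (fun w => (Z w.1, τ w.2)) =
        CH q (fun w => rd (pos M (u w.2) (v w.2) (τ w.2))) (fun w => (Z w.2, τ w.2)) := by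
      refine CH_congr hq ?_ ?_ ?_ ?_
      · intro w w' a b e
        obtain ⟨e1, e2⟩ := hb w a
        obtain ⟨e3, e4⟩ := hb w' b
        have e5 := hu w a
        have e6 := hu w' b
        simp only [Prod.mk.injEq] at e
        dsimp only
        rw [← e1, ← e3, ← e5, ← e6]
        exact e.1
      · intro w w' a b e
        obtain ⟨e1, e2⟩ := hb w a
        obtain ⟨e3, e4⟩ := hb w' b
        have e5 := hu w a
        have e6 := hu w' b
        simp only [Prod.mk.injEq] at e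
        dsimp only
        rw [e1, e3, e5, e6]
        exact e.1
      · intro w w' a b e
        obtain ⟨e1, e2⟩ := hb w a
        obtain ⟨e3, e4⟩ := hb w' b
        simp only [Prod.mk.injEq] at e ⊢
        rw [← e2, ← e4]
        exact e
      · intro w w' a b e
        obtain ⟨e1, e2⟩ := hb w a
        obtain ⟨e3, e4⟩ := hb w' b
        simp only [Prod.mk.injEq] at e ⊢
        rw [e2, e4]
        exact e
    rw [← e, ← e']
    refine CH_mono_cond hq ?_
    intro w w' _ _ e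
    simp only [Prod.mk.injEq] at e ⊢
    tauto
  have b5 : CH q (fun w => v w.1) (fun w => (rd (pos M (u w.1) (v w.1) (τ w.2)),
      (rd (pos M (u w.1) (v w.1) (τ w.1)), (τ w.2, (τ w.1, Z w.1))))) ≤
      d * (Gf M p (bv Z v) τ + 2) := by
    have h1 := CH_le_vec hq hq1 (fun w => v w.1) (fun w => (rd (pos M (u w.1) (v w.1) (τ w.2)),
      (rd (pos M (u w.1) (v w.1) (τ w.1)), (τ w.2, (τ w.1, Z w.1)))))
      (fun w => 2 * (M / max |(τ w.1 : ℝ) - τ w.2| 1))
      (fun w w' a b e k => by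
        simp only [Prod.mk.injEq] at e
        obtain ⟨e1, e2, e3, e4, e5⟩ := e
        refine gap_le h.hM (h.hv _ (m1.pos hq a) k) (h.hv _ (m1.pos hq b) k) ?_
        have f1 := rd_close e1 k
        have f2 := rd_close e2 k
        rw [e3] at f1
        rw [e4] at f2
        have : ((τ w.1 : ℝ) - τ w.2) / M * ((v w.1 k : ℝ) - v w'.1 k) =
          (pos M (u w.1) (v w.1) (τ w'.1) k - pos M (u w'.1) (v w'.1) (τ w'.1) k) -
          (pos M (u w.1) (v w.1) (τ w'.2) k - pos M (u w'.1) (v w'.1) (τ w'.2) k) := by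
          unfold pos
          rw [e3, e4]
          ring
        rw [this]
        refine (abs_sub _ _).trans ?_
        linarith)
    refine h1.trans ?_
    refine mul_le_mul_of_nonneg_left ?_ hd
    calc Ex q (fun w => Real.log (2 * (2 * (M / max |(τ w.1 : ℝ) - τ w.2| 1)) + 1)) ≤
        Ex q (fun w => 2 + ell M (τ w.1) (τ w.2)) :=
          Ex_mono hq fun w hw => by
            have hM1 : (1 : ℝ) ≤ M := by exact_mod_cast h.hM
            refine log_gap' ?_
            rw [one_le_div (lt_of_lt_of_le one_pos (le_max_right _ _))]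
            refine max_le ?_ hM1
            have i1 : (0 : ℝ) ≤ τ w.1 := by exact_mod_cast (hτ1 w hw).1
            have i2 : (τ w.1 : ℝ) < M := by exact_mod_cast (hτ1 w hw).2
            have i3 : (0 : ℝ) ≤ τ w.2 := by exact_mod_cast (hτ2 w hw).1
            have i4 : (τ w.2 : ℝ) < M := by exact_mod_cast (hτ2 w hw).2
            exact abs_le.mpr ⟨by linarith, by linarith⟩
      _ = 2 + Ex q (fun w => ell M (τ w.1) (τ w.2)) := by
          rw [Ex_add, Ex_const hq1]
      _ = Gf M p (bv Z v) τ + 2 := by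
          unfold Gf
          rw [← hqd]
          ring
  have e6 : CH p τ (fun ω => (v ω, Z ω)) = CH p τ (bv Z v) := rfl
  rw [e6] at a2 a5
  linarith

end H70L02

/-- **L02**: the better level zero. -/
theorem l02 : L02Stmt := by
  intro d ε hε
  refine ⟨2 * d, d, Nat.cast_nonneg d, ?_⟩
  intro J Ω _ ζ p Z v u τ hF
  have h0 := H70L02.core d (2 ^ J) Ω ζ p Z v u τ hF
  have hJ : 0 ≤ ε * (J * Real.log 2) :=
    mul_nonneg hε.le (mul_nonneg (Nat.cast_nonneg J) (Real.log_nonneg (by norm_num)))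
  have e1 : Kf (2 ^ J) p (bv Z v) τ = Real.log ((2 ^ J : ℕ) : ℝ) - CH p τ (bv Z v) := rfl
  have e2 : Real.log ((2 ^ J : ℕ) : ℝ) = J * Real.log 2 := by
    push_cast
    rw [Real.log_pow]
  unfold Sb
  rw [e1, e2]
  linarith

end Pool.LQ
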