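import Pool.Agent.H60.LQ.Cfg
import Pool.Agent.H70.KTH.UPT

/-!
# LQ, row UPT2: upper bounds for the entropies of the coefficients, strong form
-/

set_option autoImplicit false

namespace Pool.LQ

open Finset Real
open Pool.Agent.H49.Ent Pool.Agent.H32.Dense Pool.KTH

namespace Upt2

variable {d J : ℕ}

lemma gp_nonneg (J : ℕ) (x y : ℤ) : 0 ≤ gp J x y :=
  Real.log_nonneg (by
    have : 0 ≤ (2 : ℝ) ^ J / max 1 |(x : ℝ) - y| := by positivity
    linarith)

lemma eg_nonneg (F : Cf d J) (x y : F.Ω → ℤ) : 0 ≤ F.eg x y :=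
  Ex_nonneg F.hq fun w _ => gp_nonneg J (x w) (y w)

lemma en_nonneg (F : Cf d J) : 0 ≤ en F := by
  unfold en
  have h := eg_nonneg F
  linarith [h F.t F.s, h F.t₁ F.t, h F.t₁ F.s, h F.r F.t, h F.r F.s, h F.r F.t₁, h F.tr F.s,
    h F.ta F.s, h F.ta F.tr, h F.ta F.TO]

/-- the error term is at least one -/
lemma one_le_en (F : Cf d J) : 1 ≤ en F + 1 + Real.log (J + 2) := by
  have h : 0 ≤ Real.log ((J : ℝ) + 2) := Real.log_nonneg (by
    have : (0 : ℝ) ≤ J := Nat.cast_nonneg J
    linarith)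
  have := en_nonneg F
  linarith

end Upt2

open Upt2 Pool.KTH.Upt in
/-- **UPT2**: upper bounds. -/
theorem upt2 (h : CGP2Stmt) : UPT2Stmt := by
  intro d
  obtain ⟨C, hC0, hC⟩ := h d
  have key : ∀ (J : ℕ) (F : Cf d J),
      1.01 * F.big F.c + 8 ≤ (1.01 * C + 8) * (en F + 1 + Real.log (J + 2)) ∧
      1.01 * F.big F.c₂ + 8 ≤ (1.01 * C + 8) * (en F + 1 + Real.log (J + 2)) := by
    intro J F
    have h1 := hC J F
    have h2 := big_nonneg F F.c
    have h3 := sml_nonneg F F.c
    have h4 := big_nonneg F F.c₂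
    have h5 := sml_nonneg F F.c₂
    have h6 := one_le_en F
    simp only at h1
    constructor <;> nlinarith
  refine ⟨⟨1.01 * C + 8, by positivity, ?_⟩, ⟨1.01 * C + 8, by positivity, ?_⟩,
    ⟨1.01 * C + 8, by positivity, ?_⟩, ⟨1.01 * C + 8, by positivity, ?_⟩⟩
  · intro J F
    have := (key J F).1
    have h2 := tail_var F F.c
    simp only
    linarith
  · intro J F
    have := (key J F).2
    have h2 := tail_var F F.c₂
    simp only
    linarith
  · intro J F
    have := (key J F).1
    have h2 := tail_time F F.s F.c F.hs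
    have h3 : F.TO = fun w => F.s w + F.c w := rfl
    simp only [h3]
    linarith
  · intro J F
    have := (key J F).2
    have h2 := tail_time F F.tr F.c₂ F.htr
    have h3 : F.TY = fun w => F.tr w + F.c₂ w := rfl
    simp only [h3]
    linarith

end Pool.LQ
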