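import Pool.Agent.H60.LQ.Cfg
import Pool.Agent.H70.LQ.UPT2
import Pool.Agent.H45.KTH.FCK

/-!
# LQ, row FCO2 (Fact K', explicit)
-/

set_option autoImplicit false

namespace Pool.LQ

open Finset Real
open Pool.Agent.H49.Ent Pool.Agent.H32.Dense Pool.KTH

namespace Fco2

variable {d J : ℕ}

/-- `log (J + 2)` is small against `log M` -/
lemma log_small {ε : ℝ} (hε : 0 < ε) :
    ∃ C : ℝ, 0 ≤ C ∧ ∀ J : ℕ, Real.log ((J : ℝ) + 2) ≤ ε * lm J + C := by
  have hl := half_lt_log2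
  set δ : ℝ := ε * Real.log 2 with hδ
  have hδ0 : 0 < δ := mul_pos hε (by linarith)
  refine ⟨max 0 (2 * δ - 1 - Real.log δ), le_max_left _ _, fun J => ?_⟩
  have hJ : (0 : ℝ) ≤ J := Nat.cast_nonneg J
  have h := Real.log_le_sub_one_of_pos (show 0 < δ * ((J : ℝ) + 2) by positivity)
  rw [Real.log_mul hδ0.ne' (by positivity)] at h
  have h2 : ε * lm J = δ * J := by
    unfold lm
    rw [hδ]
    ring
  rw [h2]
  have h3 := le_max_right 0 (2 * δ - 1 - Real.log δ)
  linarith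

/-- the position of `O` seen from the line 2 -/
lemma near (F : Cf d J) {w : F.Ω} (hw : 0 < F.q w) (j : Fin d) :
    |(((F.O w).2 j : ℝ) - pos (2 ^ J) (F.u₂ w) (F.v₂ w) (F.TO w) j) -
      (F.c w : ℝ) / 2 ^ J * ((F.v₁ w j - F.v₂ w j : ℤ) : ℝ)| ≤ 2 := by
  have hMc : (((2 ^ J : ℕ) : ℕ) : ℝ) = 2 ^ J := by push_cast; rfl
  have hpos : ∀ (a : Fin d → ℝ) (b : Fin d → ℤ) (x : ℤ) (k : Fin d),
      pos (2 ^ J) a b x k = a k + (x : ℝ) / 2 ^ J * b k := by
    intro a b x k
    unfold pos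
    rw [hMc]
  have hc := rd_close (F.cross02 w hw) j
  have hO : ((F.O w).2 j : ℝ) =
      (⌊pos (2 ^ J) (F.u₀ w) (F.v₀ w) (F.s w) j + (F.c w : ℝ) / ((2 ^ J : ℕ) : ℝ) * F.v₁ w j⌋ : ℝ) :=
    rfl
  rw [hO, hMc]
  have f1 := Int.floor_le
    (pos (2 ^ J) (F.u₀ w) (F.v₀ w) (F.s w) j + (F.c w : ℝ) / 2 ^ J * F.v₁ w j)
  have f2 := Int.lt_floor_add_one
    (pos (2 ^ J) (F.u₀ w) (F.v₀ w) (F.s w) j + (F.c w : ℝ) / 2 ^ J * F.v₁ w j)
  have e1 : pos (2 ^ J) (F.u₂ w) (F.v₂ w) (F.TO w) j =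
      pos (2 ^ J) (F.u₂ w) (F.v₂ w) (F.s w) j + (F.c w : ℝ) / 2 ^ J * F.v₂ w j := by
    rw [hpos, hpos]
    unfold Cf.TO
    push_cast
    ring
  rw [abs_le] at hc
  rw [e1, abs_le]
  push_cast
  constructor <;> linarith [hc.1, hc.2]

/-- two numbers close to the same number have close integral parts -/
lemma floor_near {x y z : ℝ} (hx : |z - x| ≤ 2) (hy : |z - y| ≤ 2) :
    |((⌊x⌋ - ⌊y⌋ : ℤ) : ℝ)| ≤ 5 := by
  refine (floor_sub_le_pair x y).trans ?_
  have : |x - y| ≤ 4 := by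
    rw [abs_le] at hx hy ⊢
    constructor <;> linarith [hx.1, hx.2, hy.1, hy.2]
  linarith

end Fco2

open Fco2 Upt2 in
/-- **FCO2**: Fact K', explicit. -/
theorem fco2 (hSCL : SCL2Stmt) (hCGP : CGP2Stmt) : FCO2Stmt := by
  intro d hd ε hε
  obtain ⟨CS, hCS0, hS⟩ := hSCL (ε / 2) (by positivity)
  obtain ⟨CC, hCC0, hC⟩ := hCGP d
  have hd0 : (0 : ℝ) ≤ d := Nat.cast_nonneg d
  -- the coefficient of `en + 1 + log (J + 2)`
  set Q : ℝ := CS * CC + 2 * d * CC + 1 with hQ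
  have hQ0 : 0 < Q := by positivity
  obtain ⟨CL, hCL0, hL⟩ := log_small (ε := ε / (2 * Q)) (by positivity)
  have hl57 : 0 ≤ Real.log 57 := Real.log_nonneg (by norm_num)
  have hl2 : 0 ≤ Real.log 2 := Real.log_nonneg (by norm_num)
  have hl9 : 0 ≤ Real.log 9 := Real.log_nonneg (by norm_num)
  have hl11 : 0 ≤ Real.log 11 := Real.log_nonneg (by norm_num)
  have hlogd : 0 ≤ Real.log d := Real.log_natCast_nonneg d
  set K : ℝ := CS * (1 + Real.log 2) + d * Real.log 9 + Real.log 11 + Real.log d + Real.log 2 +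
    d * (2 * Real.log 57 + 10) with hK
  have hK0 : 0 ≤ K := by positivity
  refine ⟨K + Q * (1 + CL), by positivity, ?_⟩
  intro J F L sb Kd G hF
  have hq := F.hq
  have h1 := F.h1
  have hlm := lm_nonneg J
  have hM : (0 : ℝ) < 2 ^ J := by positivity
  have hMc : (((2 ^ J : ℕ) : ℕ) : ℝ) = 2 ^ J := by push_cast; rfl
  -- the energies
  have hcg := hC J F
  simp only at hcg
  have hb1 : 0 ≤ F.big F.c := Pool.KTH.Upt.big_nonneg F F.c
  have hb2 : 0 ≤ F.sml F.c := Pool.KTH.Upt.sml_nonneg F F.c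
  have hb3 : 0 ≤ F.big F.c₂ := Pool.KTH.Upt.big_nonneg F F.c₂
  have hb4 : 0 ≤ F.sml F.c₂ := Pool.KTH.Upt.sml_nonneg F F.c₂
  -- the difference of the directions
  set D : F.Ω → Fin d → ℤ := fun w k => F.v₁ w k - F.v₂ w k with hDdef
  have hDb : ∀ w, 0 < F.q w → ∀ k, |D w k| ≤ 2 * 2 ^ J := by
    intro w hw k
    have a := F.hv₁ w hw k
    have b := F.hv₂ w hw k
    push_cast at a b
    rw [abs_le] at a b ⊢
    simp only [hDdef]
    constructor <;> linarith [a.1, a.2, b.1, b.2]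
  set XO : F.Ω → Fin d → ℤ := fun w => (F.O w).2 with hXO
  set W : F.Ω → Fin d → ℝ :=
    fun w j => (XO w j : ℝ) - pos (2 ^ J) (F.u₂ w) (F.v₂ w) (F.TO w) j with hW
  have hWn : ∀ w, 0 < F.q w → ∀ j, |W w j - (F.c w : ℝ) / 2 ^ J * D w j| ≤ 2 :=
    fun w hw j => near F hw j
  have hWdet : ∀ w w', 0 < F.q w → 0 < F.q w' → F.O w = F.O w' → F.v₂ w = F.v₂ w' →
      F.Z w = F.Z w' → W w = W w' := by
    intro w w' hw hw' hO hv hZ
    have hu : F.u₂ w = F.u₂ w' := F.hu₂ w w' hw hw' (Prod.ext hv hZ)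
    have hT : F.TO w = F.TO w' := (Prod.ext_iff.1 hO).1
    have hX : XO w = XO w' := (Prod.ext_iff.1 hO).2
    simp only [hW]
    rw [hX, hu, hv, hT]
  -- the ratios given `O`, `v₂`
  have hI := iot_CH hd hq h1 (fun w => (F.O w, F.v₂ w, F.Z w)) D F.c W
    (fun w w' a b h => by
      have h2 := Prod.ext_iff.1 h
      have h3 := Prod.ext_iff.1 h2.2
      exact hWdet w w' a b h2.1 h3.1 h3.2) hDb hWn
  have hsml : Ex F.q (fun w => Real.log (1 + 2 ^ J / max 1 |(F.c w : ℝ)|)) = F.sml F.c := rfl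
  rw [hsml] at hI
  -- SCL2
  set g : F.Ω → ℤ := fun w => D w (kk hd (D w)) with hg
  set x : F.Ω → ℝ := fun w => -((F.s w : ℝ) / 2 ^ J * g w) with hx
  set T : F.Ω → ℤ := F.TO with hT
  set Z' : F.Ω → ((Fin d → ℤ) × (Fin d × ℕ)) × (Fin d → ℤ) × F.ζ :=
    fun w => (iot hd (D w), F.v₂ w, F.Z w) with hZ'
  set X : F.Ω → ℤ := fun w => ⌊x w + (T w : ℝ) / 2 ^ J * g w⌋ with hX
  have hscl := hS J F.Ω _ F.q Z' g x T hq h1 (fun w hw => hDb w hw _)
  -- the time of `O`
  have hTb : Ex F.q (fun w => Real.log (1 + |(T w : ℝ)| / 2 ^ J)) ≤ Real.log 2 + F.big F.c := by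
    have h2 : Ex F.q (fun w => Real.log (1 + |(T w : ℝ)| / 2 ^ J)) ≤
        Ex F.q (fun w => Real.log 2 + Real.log (1 + |(F.c w : ℝ)| / 2 ^ J)) := by
      refine Ex_mono hq fun w hw => ?_
      obtain ⟨s0, s1⟩ := F.hs w hw
      have s0' : (0 : ℝ) ≤ (F.s w : ℝ) := by exact_mod_cast s0
      have s1' : (F.s w : ℝ) ≤ 2 ^ J := by
        have : (F.s w : ℝ) < ((2 ^ J : ℕ) : ℝ) := by exact_mod_cast s1
        push_cast at this
        exact this.le
      have ha : |(T w : ℝ)| ≤ 2 ^ J + |(F.c w : ℝ)| := by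
        rw [hT]
        unfold Cf.TO
        push_cast
        refine (abs_add_le _ _).trans ?_
        rw [abs_of_nonneg s0']
        linarith
      rw [← Real.log_mul (by norm_num) (by positivity)]
      refine Real.log_le_log (by positivity) ?_
      have hb : |(T w : ℝ)| / 2 ^ J ≤ (2 ^ J + |(F.c w : ℝ)|) / 2 ^ J := by gcongr
      rw [add_div, div_self hM.ne'] at hb
      have hc : 0 ≤ |(F.c w : ℝ)| / 2 ^ J := by positivity
      linarith
    rwa [Ex_add, Ex_const h1] at h2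
  -- the deficit
  set e2 : ℝ := lm J - CH F.q F.c (fun w => (F.v₁ w, F.v₂ w, F.s w, F.Z w)) with he2
  have he2eta : e2 ≤ eta F := by
    have h2 : CH F.q F.c (fun w => (F.v3 w, (F.t w, F.s w, F.tr w, F.ta w), F.Z w)) ≤
        CH F.q F.c (fun w => (F.v₁ w, F.v₂ w, F.s w, F.Z w)) := by
      refine CH_mono_cond hq ?_
      intro w w' _ _ h
      simp only [Cf.v3, Prod.mk.injEq] at h ⊢
      tauto
    have h3 := hF.ci
    unfold eta
    linarith
  have hTge : lm J - CH F.q T (fun w => ((g w, x w), Z' w)) ≤ e2 := by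
    have h2 : CH F.q F.c (fun w => (F.v₁ w, F.v₂ w, F.s w, F.Z w)) =
        CH F.q T (fun w => (F.v₁ w, F.v₂ w, F.s w, F.Z w)) := by
      refine CH_congr hq ?_ ?_ (fun _ _ _ _ h => h) (fun _ _ _ _ h => h)
      · intro w w' _ _ h
        simp only [Prod.mk.injEq] at h
        obtain ⟨a1, -, -, a4, -⟩ := h
        show F.s w + F.c w = F.s w' + F.c w'
        rw [a1, a4]
      · intro w w' _ _ h
        simp only [Prod.mk.injEq] at h
        obtain ⟨a1, -, -, a4, -⟩ := h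
        have a1' : F.s w + F.c w = F.s w' + F.c w' := a1
        rw [a4] at a1'
        exact add_left_cancel a1'
    have h3 : CH F.q T (fun w => (F.v₁ w, F.v₂ w, F.s w, F.Z w)) ≤
        CH F.q T (fun w => ((g w, x w), Z' w)) := by
      refine CH_mono_cond hq ?_
      intro w w' _ _ h
      simp only [Prod.mk.injEq] at h
      obtain ⟨a1, a2, a3, a4⟩ := h
      have hD2 : D w = D w' := by
        funext k
        simp only [hDdef]
        rw [a1, a2]
      simp only [hg, hx, hZ']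
      rw [hD2, a2, a3, a4]
    rw [he2]
    linarith
  -- (1) the lines 1 from the scalar family
  have t1 : CH F.q F.v₁ Z' ≤ CH F.q g Z' := by
    have h2 : CH F.q F.v₁ Z' = CH F.q D Z' := by
      refine CH_congr hq ?_ ?_ (fun _ _ _ _ h => h) (fun _ _ _ _ h => h)
      · intro w w' _ _ h
        have h2 := Prod.ext_iff.1 h
        have a1 : F.v₁ w = F.v₁ w' := h2.1
        have a2 : F.v₂ w = F.v₂ w' := (Prod.ext_iff.1 (Prod.ext_iff.1 h2.2).2).1
        funext k
        show F.v₁ w k - F.v₂ w k = F.v₁ w' k - F.v₂ w' k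
        rw [a1, a2]
      · intro w w' _ _ h
        have h2 := Prod.ext_iff.1 h
        have hD2 : D w = D w' := h2.1
        have a2 : F.v₂ w = F.v₂ w' := (Prod.ext_iff.1 (Prod.ext_iff.1 h2.2).2).1
        funext k
        have h3 := congrFun hD2 k
        have h4 := congrFun a2 k
        have h5 : F.v₁ w k - F.v₂ w k = F.v₁ w' k - F.v₂ w' k := h3
        linarith
    rw [h2]
    exact CH_D_le hd hq (fun w => (F.v₂ w, F.Z w)) D
  -- the number `x + T g / M` is `(c / M) g`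
  have hxT : ∀ w, x w + (T w : ℝ) / 2 ^ J * g w =
      (F.c w : ℝ) / 2 ^ J * D w (kk hd (D w)) := by
    intro w
    have : (T w : ℝ) = F.s w + F.c w := by
      show ((F.s w + F.c w : ℤ) : ℝ) = _
      push_cast
      rfl
    simp only [hx, hg]
    rw [this]
    ring
  -- (2) time and position of the scalar family from `O`
  have t2 : CH F.q (fun w => (T w, X w)) Z' ≤ CH F.q F.O Z' + Real.log 11 := by
    have h2 : CH F.q (fun w => (T w, X w)) Z' ≤ CH F.q (fun w => (X w, F.O w)) Z' := by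
      refine CH_mono_left hq ?_
      intro w w' _ _ h
      have h2 := Prod.ext_iff.1 (Prod.ext_iff.1 h).1
      exact Prod.ext (Prod.ext_iff.1 h2.2).1 h2.1
    have h3 : CH F.q (fun w => (X w, F.O w)) Z' = CH F.q F.O Z' +
        CH F.q X (fun w => (F.O w, Z' w)) := CH_chain hq _ _ _
    have h4 := CH_le_int hq h1 X (fun w => (F.O w, Z' w)) (fun _ => 5) (by
      intro w w' hw hw' h
      have h2 := Prod.ext_iff.1 h
      have a1 : F.O w = F.O w' := h2.1
      have h3 := Prod.ext_iff.1 h2.2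
      have a2 : iot hd (D w) = iot hd (D w') := h3.1
      have a3 : F.v₂ w = F.v₂ w' := (Prod.ext_iff.1 h3.2).1
      have a4 : F.Z w = F.Z w' := (Prod.ext_iff.1 h3.2).2
      have hk2 : kk hd (D w) = kk hd (D w') := (Prod.ext_iff.1 (Prod.ext_iff.1 a2).2).1
      have hW2 := hWdet w w' hw hw' a1 a3 a4
      simp only [hX]
      rw [hxT w, hxT w']
      have b1 := hWn w hw (kk hd (D w))
      have b2 := hWn w' hw' (kk hd (D w'))
      rw [← hW2, ← hk2] at b2
      rw [← hk2]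
      exact floor_near b1 b2)
    rw [Ex_const h1] at h4
    norm_num at h4
    linarith
  -- (3) the point given the line 1 and the time `s`
  have t3 : CH F.q F.O (fun w => ((F.s w, F.v₁ w), Z' w)) ≤ lm J - e2 + d * Real.log 9 := by
    have h2 : CH F.q F.O (fun w => ((F.s w, F.v₁ w), Z' w)) ≤
        CH F.q (fun w => (XO w, F.c w)) (fun w => ((F.s w, F.v₁ w), Z' w)) := by
      refine CH_mono_left hq ?_
      intro w w' _ _ h
      have h2 := Prod.ext_iff.1 h
      have h3 := Prod.ext_iff.1 h2.1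
      have a1 : XO w = XO w' := h3.1
      have a2 : F.c w = F.c w' := h3.2
      have a3 : F.s w = F.s w' := (Prod.ext_iff.1 (Prod.ext_iff.1 h2.2).1).1
      refine Prod.ext ?_ a1
      show F.s w + F.c w = F.s w' + F.c w'
      rw [a2, a3]
    have h3 : CH F.q (fun w => (XO w, F.c w)) (fun w => ((F.s w, F.v₁ w), Z' w)) =
        CH F.q F.c (fun w => ((F.s w, F.v₁ w), Z' w)) +
        CH F.q XO (fun w => (F.c w, ((F.s w, F.v₁ w), Z' w))) := CH_chain hq _ _ _
    have h4 : CH F.q F.c (fun w => ((F.s w, F.v₁ w), Z' w)) ≤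
        CH F.q F.c (fun w => (F.v₁ w, F.v₂ w, F.s w, F.Z w)) := by
      refine CH_mono_cond hq ?_
      intro w w' _ _ h
      simp only [hZ', Prod.mk.injEq] at h ⊢
      tauto
    have h5 := CH_le_vec hq h1 XO (fun w => (F.c w, ((F.s w, F.v₁ w), Z' w))) (fun _ => 4) (by
      intro w w' hw hw' h j
      simp only [hZ', Prod.mk.injEq] at h
      obtain ⟨a1, ⟨a2, a3⟩, -, a4, a5⟩ := h
      have hu : F.u₂ w = F.u₂ w' := F.hu₂ w w' hw hw' (Prod.ext a4 a5)
      have hT2 : F.TO w = F.TO w' := by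
        show F.s w + F.c w = F.s w' + F.c w'
        rw [a1, a2]
      have b1 := near F hw j
      have b2 := near F hw' j
      rw [← hu, ← a4, ← hT2, ← a1, ← a3] at b2
      simp only [hXO]
      push_cast
      rw [abs_le] at b1 b2 ⊢
      constructor <;> linarith [b1.1, b1.2, b2.1, b2.2])
    rw [Ex_const h1] at h5
    norm_num at h5
    rw [he2]
    linarith
  -- (4) the entropy of `s`
  have t4 : CH F.q F.s (fun w => (F.v₁ w, Z' w)) ≤ F.qs := by
    unfold Cf.qs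
    refine CH_mono_cond hq ?_
    intro w w' _ _ h
    simp only [hZ', Prod.mk.injEq] at h ⊢
    tauto
  have t5 : CH F.q F.s (fun w => (F.v12 w, F.O w, F.Z w)) ≤
      CH F.q F.s (fun w => (F.v₁ w, (F.O w, Z' w))) := by
    refine CH_mono_cond hq ?_
    intro w w' _ _ h
    simp only [Cf.v12, Prod.mk.injEq] at h
    obtain ⟨⟨a1, a2⟩, a3, a4⟩ := h
    have hD2 : D w = D w' := by
      funext k
      simp only [hDdef]
      rw [a1, a2]
    simp only [hZ']
    rw [hD2, a1, a2, a3, a4]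
  -- (5) chain rules
  have c1 : CH F.q (fun w => ((F.s w, F.v₁ w), F.O w)) Z' = CH F.q F.O Z' +
      CH F.q (fun w => (F.s w, F.v₁ w)) (fun w => (F.O w, Z' w)) := CH_chain hq _ _ _
  have c2 : CH F.q (fun w => (F.O w, (F.s w, F.v₁ w))) Z' =
      CH F.q (fun w => (F.s w, F.v₁ w)) Z' +
      CH F.q F.O (fun w => ((F.s w, F.v₁ w), Z' w)) := CH_chain hq _ _ _
  have c3 : CH F.q (fun w => ((F.s w, F.v₁ w), F.O w)) Z' =
      CH F.q (fun w => (F.O w, (F.s w, F.v₁ w))) Z' := by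
    refine CH_congr hq ?_ ?_ (fun _ _ _ _ h => h) (fun _ _ _ _ h => h)
    · intro w w' _ _ h
      simp only [Prod.mk.injEq] at h ⊢
      tauto
    · intro w w' _ _ h
      simp only [Prod.mk.injEq] at h ⊢
      tauto
  have c4 : CH F.q (fun w => (F.s w, F.v₁ w)) Z' = CH F.q F.v₁ Z' +
      CH F.q F.s (fun w => (F.v₁ w, Z' w)) := CH_chain hq _ _ _
  have c5 : CH F.q (fun w => (F.s w, F.v₁ w)) (fun w => (F.O w, Z' w)) =
      CH F.q F.v₁ (fun w => (F.O w, Z' w)) +
      CH F.q F.s (fun w => (F.v₁ w, (F.O w, Z' w))) := CH_chain hq _ _ _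
  have c6 : CH F.q F.v₁ (fun w => (F.O w, F.v₂ w, F.Z w)) ≤
      CH F.q (fun w => iot hd (D w)) (fun w => (F.O w, F.v₂ w, F.Z w)) +
        CH F.q F.v₁ (fun w => (iot hd (D w), (F.O w, F.v₂ w, F.Z w))) := CH_le_add hq _ _ _
  have c7 : CH F.q F.v₁ (fun w => (iot hd (D w), (F.O w, F.v₂ w, F.Z w))) =
      CH F.q F.v₁ (fun w => (F.O w, Z' w)) := by
    refine CH_congr hq (fun w w' _ _ h => (Prod.ext_iff.1 h).1)
      (fun w w' _ _ h => (Prod.ext_iff.1 h).1) ?_ ?_
    · intro w w' _ _ h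
      simp only [hZ', Prod.mk.injEq] at h ⊢
      tauto
    · intro w w' _ _ h
      simp only [hZ', Prod.mk.injEq] at h ⊢
      tauto
  -- the sum
  have s1 : CH F.q F.v₁ (fun w => (F.O w, Z' w)) +
      CH F.q F.s (fun w => (F.v12 w, F.O w, F.Z w)) ≤ F.qs + e2 + d * Real.log 9 + Real.log 11 +
        CS * (1 + (Real.log 2 + F.big F.c)) + ε / 2 * lm J := by
    have h2 : CS * (1 + Ex F.q (fun w => Real.log (1 + |(T w : ℝ)| / 2 ^ J))) ≤
        CS * (1 + (Real.log 2 + F.big F.c)) := by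
      refine mul_le_mul_of_nonneg_left ?_ hCS0
      linarith
    linarith
  have f4 : Real.log (J + 3) ≤ Real.log 2 + Real.log (J + 2) := by
    rw [← Real.log_mul (by norm_num) (by positivity)]
    refine Real.log_le_log (by positivity) ?_
    have : (0 : ℝ) ≤ J := Nat.cast_nonneg J
    linarith
  have f5 := hL J
  set E : ℝ := en F + 1 + Real.log (J + 2) with hE
  have f6 : CS * F.big F.c ≤ CS * (CC * E) := mul_le_mul_of_nonneg_left (by linarith) hCS0
  have f7 : (d : ℝ) * (2 * F.sml F.c) ≤ d * (2 * (CC * E)) :=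
    mul_le_mul_of_nonneg_left (by linarith) hd0
  have hen := en_nonneg F
  have f8 : Real.log (J + 2) ≤ E := by linarith
  have f9 : E ≤ G + 1 + (ε / (2 * Q) * lm J + CL) := by
    have := hF.ge
    linarith
  have f10 : Q * E ≤ Q * (G + 1 + (ε / (2 * Q) * lm J + CL)) :=
    mul_le_mul_of_nonneg_left f9 hQ0.le
  have f11 : Q * (G + 1 + (ε / (2 * Q) * lm J + CL)) = Q * (G + 1) + ε / 2 * lm J + Q * CL := by
    field_simp
    ring
  have hG0 := hF.G0
  have f12 : Q * CL ≤ Q * CL * (G + 1) := by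
    have : 0 ≤ Q * CL := by positivity
    nlinarith
  have f13 : K ≤ K * (G + 1) := by nlinarith
  simp only
  have f14 : CH F.q F.v₁ (fun w => (F.O w, F.v₂ w, F.Z w)) +
      CH F.q F.s (fun w => (F.v12 w, F.O w, F.Z w)) ≤ F.qs + e2 + K + Q * E + ε / 2 * lm J := by
    rw [hK, hQ]
    linarith
  have f15 : (K + Q * (1 + CL)) * (G + 1) = K * (G + 1) + Q * (G + 1) + Q * CL * (G + 1) := by
    ring
  rw [f15]
  have f16 : ε * lm J = ε / 2 * lm J + ε / 2 * lm J := by ring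
  rw [f16]
  linarith

end Pool.LQ
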