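import Pool.Agent.H60.LQ.Cfg
import Pool.Agent.H70.LQ.UPT2

/-!
# LQ, row SEP2: the crossing times are determined up to `M / |v - v'|`
-/

set_option autoImplicit false

namespace Pool.LQ

open Finset Real
open Pool.Agent.H49.Ent Pool.Agent.H32.Dense Pool.KTH
open Pool.Agent.H24.KTH (dsv lvv)

namespace Sep2

variable {d : ℕ}

lemma dsv_le {x y : Fin d → ℤ} {r : ℝ} (hr : 0 ≤ r)
    (h : ∀ k, |((x k - y k : ℤ) : ℝ)| ≤ r) : dsv x y ≤ r := by
  unfold dsv
  rw [pi_norm_le_iff_of_nonneg hr]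
  intro k
  rw [Real.norm_eq_abs]
  exact h k

lemma dsv_nonneg (x y : Fin d → ℤ) : 0 ≤ dsv x y := norm_nonneg _

/-- a time which is determined up to `3 M / |x - y|` -/
lemma time_le {Ω : Type} [Fintype Ω] {T : Type} {M : ℕ} (hM : 0 < M) {p : Ω → ℝ}
    (hp : ∀ ω, 0 ≤ p ω) (h1 : ∑ ω, p ω = 1) (X : Ω → ℤ) (W : Ω → T) (x y : Ω → Fin d → ℤ)
    (hX : ∀ ω, 0 < p ω → 0 ≤ X ω ∧ X ω < M)
    (hx : ∀ ω, 0 < p ω → ∀ k, |x ω k| ≤ M) (hy : ∀ ω, 0 < p ω → ∀ k, |y ω k| ≤ M)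
    (h : ∀ ω ω', 0 < p ω → 0 < p ω' → W ω = W ω' → ∀ k,
      |((X ω : ℝ) - X ω') / M * ((x ω k : ℝ) - y ω k)| ≤ 3) :
    CH p X W ≤ Ex p (fun ω => lvv M (x ω) (y ω)) + 3 := by
  have hM0 : (0 : ℝ) < M := by exact_mod_cast hM
  have hmain := CH_le_int hp h1 X W (fun ω => 3 * (M / max (dsv (x ω) (y ω)) 1)) (by
    intro ω ω' hω hω' hW
    have hd := dsv_nonneg (x ω) (y ω)
    obtain ⟨a1, a2⟩ := hX ω hω
    obtain ⟨b1, b2⟩ := hX ω' hω'
    have a1' : (0 : ℝ) ≤ X ω := by exact_mod_cast a1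
    have a2' : (X ω : ℝ) < M := by exact_mod_cast a2
    have b1' : (0 : ℝ) ≤ X ω' := by exact_mod_cast b1
    have b2' : (X ω' : ℝ) < M := by exact_mod_cast b2
    have hXM : |(X ω : ℝ) - X ω'| ≤ M := by
      rw [abs_le]
      constructor <;> linarith
    push_cast
    rcases le_total (dsv (x ω) (y ω)) 1 with hc | hc
    · rw [max_eq_right hc, div_one]
      linarith
    · rw [max_eq_left hc]
      rcases eq_or_lt_of_le (abs_nonneg ((X ω : ℝ) - X ω')) with h0 | h0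
      · rw [← h0]
        positivity
      · have hb : dsv (x ω) (y ω) ≤ 3 * M / |(X ω : ℝ) - X ω'| := by
          refine dsv_le (by positivity) fun k => ?_
          have hk := h ω ω' hω hω' hW k
          rw [abs_mul, abs_div, Nat.abs_cast] at hk
          rw [le_div_iff₀ h0]
          push_cast
          have e : |(X ω : ℝ) - X ω'| / M * |(x ω k : ℝ) - y ω k| =
              |(x ω k : ℝ) - y ω k| * |(X ω : ℝ) - X ω'| / M := by ring
          rw [e, div_le_iff₀ hM0] at hk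
          exact hk
        have hdpos : 0 < dsv (x ω) (y ω) := by linarith
        rw [le_div_iff₀ h0] at hb
        rw [← mul_div_assoc, le_div_iff₀ hdpos]
        linarith)
  refine hmain.trans ?_
  have h2 : Ex p (fun ω => Real.log (2 * (3 * (M / max (dsv (x ω) (y ω)) 1)) + 1)) ≤
      Ex p (fun ω => lvv M (x ω) (y ω) + 3) := by
    refine Ex_mono hp fun ω hω => ?_
    have hd := dsv_nonneg (x ω) (y ω)
    have hdM : dsv (x ω) (y ω) ≤ 2 * M := by
      refine dsv_le (by positivity) fun k => ?_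
      have c1 : |(x ω k : ℝ)| ≤ M := by exact_mod_cast hx ω hω k
      have c2 : |(y ω k : ℝ)| ≤ M := by exact_mod_cast hy ω hω k
      push_cast
      refine (abs_sub _ _).trans ?_
      linarith
    have hM1 : (1 : ℝ) ≤ M := by exact_mod_cast hM
    have hmax : max (dsv (x ω) (y ω)) 1 ≤ 2 * M := max_le hdM (by linarith)
    have hmpos : 0 < max (dsv (x ω) (y ω)) 1 := lt_of_lt_of_le one_pos (le_max_right _ _)
    have hy2 : 1 / 2 ≤ M / max (dsv (x ω) (y ω)) 1 := by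
      rw [div_le_div_iff₀ (by norm_num) hmpos]
      linarith
    unfold lvv
    generalize M / max (dsv (x ω) (y ω)) 1 = z at hy2
    have hz : 0 < z := by linarith
    calc Real.log (2 * (3 * z) + 1) ≤ Real.log (z * 8) := by
          apply Real.log_le_log (by positivity)
          linarith
      _ = Real.log z + Real.log 8 := Real.log_mul hz.ne' (by norm_num)
      _ ≤ Real.log z + 3 := by
          have : Real.log 8 ≤ (3 : ℕ) := log_le_of_pow (by norm_num) (by norm_num)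
          push_cast at this
          linarith
  refine h2.trans (le_of_eq ?_)
  rw [Ex_add, Ex_const h1]

end Sep2

open Sep2 Upt2 in
/-- **SEP2**: the crossing times are determined up to `M / |v - v'|`. -/
theorem sep2 : SEP2Stmt := by
  intro d _
  have hfin : ∀ (J : ℕ) (F : Cf d J) (x y : ℝ), x ≤ y + 3 →
      x - y ≤ 3 * (en F + 1 + Real.log (J + 2)) := by
    intro J F x y h
    have := one_le_en F
    linarith
  refine ⟨⟨3, by norm_num, ?_⟩, ⟨3, by norm_num, ?_⟩⟩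
  · intro J F
    refine hfin J F _ _ ?_
    unfold Cf.y01
    refine time_le (M := 2 ^ J) (by positivity) F.hq F.h1 F.t (fun w => (F.v01 w, F.Z w)) F.v₀ F.v₁
      F.ht F.hv₀ F.hv₁ ?_
    intro w w' hw hw' hW k
    simp only [Cf.v01, Prod.mk.injEq] at hW
    obtain ⟨⟨e0, e1⟩, eZ⟩ := hW
    have hu0 : F.u₀ w = F.u₀ w' := F.hu₀ w w' hw hw' (Prod.ext e0 eZ)
    have hu1 : F.u₁ w = F.u₁ w' := F.hu₁ w w' hw hw' (Prod.ext e1 eZ)
    have c1 := rd_close (F.cross01 w hw) k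
    have c2 := rd_close (F.cross01 w' hw') k
    unfold pos at c1 c2
    rw [← hu0, ← hu1, ← e0, ← e1] at c2
    have e : ((F.t w : ℝ) - F.t w') / ((2 ^ J : ℕ) : ℝ) * ((F.v₀ w k : ℝ) - F.v₁ w k) =
        (F.u₀ w k + F.t w / ((2 ^ J : ℕ) : ℝ) * F.v₀ w k -
          (F.u₁ w k + F.t w / ((2 ^ J : ℕ) : ℝ) * F.v₁ w k)) -
        (F.u₀ w k + F.t w' / ((2 ^ J : ℕ) : ℝ) * F.v₀ w k -
          (F.u₁ w k + F.t w' / ((2 ^ J : ℕ) : ℝ) * F.v₁ w k)) := by ring
    rw [e]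
    refine (abs_sub _ _).trans ?_
    linarith
  · intro J F
    refine hfin J F _ _ ?_
    unfold Cf.y12
    refine time_le (M := 2 ^ J) (by positivity) F.hq F.h1 F.s
      (fun w => (F.v12 w, F.O w, F.Z w)) F.v₁ F.v₂ F.hs F.hv₁ F.hv₂ ?_
    intro w w' hw hw' hW k
    simp only [Cf.v12, Cf.O, Prod.mk.injEq] at hW
    obtain ⟨⟨e1, e2⟩, ⟨eT, eX⟩, eZ⟩ := hW
    have hu2 : F.u₂ w = F.u₂ w' := F.hu₂ w w' hw hw' (Prod.ext e2 eZ)
    have c1 := rd_close (F.cross02 w hw) k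
    have c2 := rd_close (F.cross02 w' hw') k
    have c3 := rd_close eX k
    have eT' : (F.s w : ℝ) + F.c w = F.s w' + F.c w' := by exact_mod_cast eT
    unfold pos at c1 c2 c3
    rw [← hu2, ← e2] at c2
    rw [← e1] at c3
    have e : ((F.s w : ℝ) - F.s w') / ((2 ^ J : ℕ) : ℝ) * ((F.v₁ w k : ℝ) - F.v₂ w k) =
        (F.u₀ w k + F.s w / ((2 ^ J : ℕ) : ℝ) * F.v₀ w k -
          (F.u₂ w k + F.s w / ((2 ^ J : ℕ) : ℝ) * F.v₂ w k)) -
        (F.u₀ w' k + F.s w' / ((2 ^ J : ℕ) : ℝ) * F.v₀ w' k -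
          (F.u₂ w k + F.s w' / ((2 ^ J : ℕ) : ℝ) * F.v₂ w k)) -
        ((F.u₀ w k + F.s w / ((2 ^ J : ℕ) : ℝ) * F.v₀ w k +
          F.c w / ((2 ^ J : ℕ) : ℝ) * F.v₁ w k) -
         (F.u₀ w' k + F.s w' / ((2 ^ J : ℕ) : ℝ) * F.v₀ w' k +
          F.c w' / ((2 ^ J : ℕ) : ℝ) * F.v₁ w k)) := by
      have ec : (F.c w : ℝ) = F.s w' + F.c w' - F.s w := by linarith
      rw [ec]
      ring
    rw [e]
    refine (abs_sub _ _).trans ?_
    refine le_trans (add_le_add (abs_sub _ _) le_rfl) ?_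
    linarith

end Pool.LQ
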